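import Pool.Agent.H14.AVR.Stmts3

/-!
# AVR: statements of the modules (stage 3 for all odd characteristics)
-/

set_option autoImplicit false

namespace Pool.AVR

open Polynomial Matrix

/-- The conclusion of TAI for one field. -/
def TAIc (F : Type) [Field F] : Prop :=
  ∀ ε : ℝ, 0 < ε → ∃ D N : ℕ, ∀ n : ℕ, N ≤ n →
    ({f ∈ Fam F n | ∃ P : F[X], P.Monic ∧ Irreducible P ∧ D < P.natDegree ∧
      P ^ 2 ∣ disc f.1 f.2.1 f.2.2}.ncard : ℝ) ≤ ε * (Nat.card F : ℝ) ^ (12 * n + 3)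

/-- TA5: few discriminants are divisible by the square of a large prime (characteristic at
least 5). -/
def TA5Stmt : Prop :=
  ∀ (F : Type) [Field F] [Finite F], (2 : F) ≠ 0 → (3 : F) ≠ 0 → TAIc F

/-- DE5: lower bounds for the local densities (2 and 3 invertible). -/
def DE5Stmt : Prop :=
  ∀ (R : Type) [CommRing R] [Finite R] (ϖ : R), Len2 R ϖ → IsUnit (2 : R) → IsUnit (3 : R) →
    1 - 2 / (res ϖ : ℝ) ^ 2 ≤ dens R

/-- DNG: lower bound for the number of equations with squarefree discriminant, all odd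
characteristics. -/
def DNGStmt : Prop :=
  ∀ (F : Type) [Field F] [Finite F], (2 : F) ≠ 0 → ∀ ε : ℝ, 0 < ε → ∃ D : ℕ,
    ∀ S : Finset F[X], (∀ P ∈ S, P.Monic ∧ Irreducible P) →
    (∀ P : F[X], P.Monic → Irreducible P → P.natDegree ≤ D → P ∈ S) →
    ∃ N : ℕ, ∀ n : ℕ, N ≤ n → (SF F n).Finite ∧
      (Nat.card F : ℝ) ^ (12 * n + 3) *
        (dens (DualNumber F) * ∏ P ∈ S, dens (AdjoinRoot (P ^ 2)) - ε) ≤ (SF F n).ncard

/-- PRG: the product of the densities is bounded below, all odd characteristics. -/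
def PRGStmt : Prop :=
  ∀ (F : Type) [Field F] [Finite F], (2 : F) ≠ 0 → ∃ c : ℝ, 0 < c ∧ ∀ S : Finset F[X],
    (∀ P ∈ S, P.Monic ∧ Irreducible P) →
    c ≤ dens (DualNumber F) * ∏ P ∈ S, dens (AdjoinRoot (P ^ 2))

open Classical in
/-- ST4: the average is at most 3 for squarefree discriminants, all odd characteristics. -/
def ST4Stmt : Prop :=
  ∀ (F : Type) [Field F] [Finite F], (2 : F) ≠ 0 → ∀ ε : ℝ, 0 < ε → ∃ N : ℕ, ∀ n : ℕ, N ≤ n →
    0 < (SF F n).ncard ∧ (∀ f ∈ SF F n, Finite (Mod2 (EK f))) ∧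
    ∑ᶠ f ∈ SF F n, (Nat.card (Mod2 (EK f)) : ℝ) ≤ (3 + ε) * (SF F n).ncard

end Pool.AVR
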