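import Pool.Agent.H14.AVR.Stmts

/-!
# AVR: statements of the modules (stage 2: all curves; Mordell-Weil; ranks)
-/

set_option autoImplicit false

namespace Pool.AVR

open Polynomial Matrix

/-- STE: stabilisers have at most eight elements when the characteristic polynomial is separable. -/
def STEStmt : Prop :=
  ∀ (K : Type) [Field K], (2 : K) ≠ 0 → ∀ B : Matrix (Fin 3) (Fin 3) K, Bᵀ = B →
    (AA K * B).charpoly.Separable →
    {g : Matrix (Fin 3) (Fin 3) K | gᵀ * AA K * g = AA K ∧ gᵀ * B * g = B ∧ g.det = 1}.Finite ∧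
    {g : Matrix (Fin 3) (Fin 3) K | gᵀ * AA K * g = AA K ∧ gᵀ * B * g = B ∧ g.det = 1}.ncard ≤ 8

/-- DSC: the discriminant and separability. -/
def DSCStmt : Prop :=
  ∀ (K : Type) [Field K], (2 : K) ≠ 0 → ∀ a b c : K,
    ((cub a b c).Separable ↔ disc a b c ≠ 0) ∧ (E a b c).Δ = 16 * disc a b c

/-- ICB: many monic irreducible cubics over a finite field. -/
def ICBStmt : Prop :=
  ∀ (k : Type) [Field k] [Finite k],
    Nat.card k ^ 3 - Nat.card k ≤ 3 * {t : k × k × k | Irreducible (cub t.1 t.2.1 t.2.2)}.ncard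

/-- LDP: over a finite field of odd order every irreducible cubic is the characteristic polynomial
of at least `κ²(κ-1)` matrices `A B` with `B` symmetric. -/
def LDPStmt : Prop :=
  ∀ (k : Type) [Field k] [Finite k], (2 : k) ≠ 0 → ∀ a b c : k, Irreducible (cub a b c) →
    Nat.card k ^ 2 * (Nat.card k - 1) ≤
      {B : Matrix (Fin 3) (Fin 3) k | Bᵀ = B ∧ (AA k * B).charpoly = cub a b c}.ncard

/-- EQB: equidistribution of the bounded symmetric matrices modulo a polynomial and at infinity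
(the two top coefficients of every entry). -/
def EQBStmt : Prop :=
  ∀ (F : Type) [Field F] [Finite F] (n m : ℕ) (M : F[X]), M ≠ 0 → m ≤ n →
    M.natDegree + 2 ≤ 2 * (n - m) + 1 →
    ∀ (W : Set (Matrix (Fin 3) (Fin 3) (AdjoinRoot M)))
      (V : Set (Matrix (Fin 3) (Fin 3) (F × F))),
      (∀ B ∈ W, Bᵀ = B) → (∀ B ∈ V, Bᵀ = B) →
      {B : Matrix (Fin 3) (Fin 3) F[X] | Bd n m B ∧ B.map (AdjoinRoot.mk M) ∈ W ∧
        (Matrix.of fun i j => ((B i j).coeff (2 * (n : ℤ) + dd m i + dd m j).toNat,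
          (B i j).coeff ((2 * (n : ℤ) + dd m i + dd m j).toNat - 1))) ∈ V}.ncard *
        (Nat.card F ^ (6 * M.natDegree) * Nat.card F ^ 12) =
      Nat.card F ^ (12 * n + 6) * (W.ncard * V.ncard)

/-- RED: matrices with a reducible characteristic polynomial are rare. -/
def REDStmt : Prop :=
  ∀ (F : Type) [Field F] [Finite F], (2 : F) ≠ 0 → ∀ ε : ℝ, 0 < ε → ∃ D : ℕ, ∀ n m : ℕ,
    m + D ≤ n →
    ({B : Matrix (Fin 3) (Fin 3) F[X] | Bd n m B ∧ ∃ f ∈ Fam F n, ¬ Irreducible (cubK f) ∧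
      (AA F[X] * B).charpoly = cubP f}.ncard : ℝ) ≤ ε * (Nat.card F : ℝ) ^ (12 * n + 6)

/-- RNK: the rank and `G / 2G`. -/
def RNKStmt : Prop :=
  ∀ (G : Type) [AddCommGroup G], AddGroup.FG G → Finite (Mod2 G) ∧
    2 ^ Module.finrank ℤ G ≤ Nat.card (Mod2 G) ∧
    ((∀ g : G, g + g = 0 → g = 0) → 2 ^ Module.finrank ℤ G = Nat.card (Mod2 G))

/-- AAV: heights on `F(t)`. -/
def AAVStmt : Prop :=
  ∀ (F : Type) [Field F] [Finite F], ∃ _ : Height.AdmissibleAbsValues (RatFunc F),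
    Northcott (Height.mulHeight₁ (K := RatFunc F))

/-- PLL: the approximate parallelogram law. -/
def PLLStmt : Prop :=
  ∀ (K : Type) [Field K] [DecidableEq K] [Height.AdmissibleAbsValues K] (W : WeierstrassCurve K)
    [W.IsElliptic], ∃ C : ℝ, ∀ P Q : W.toAffine.Point,
      |Height.logHeight (P + Q).xRep + Height.logHeight (P - Q).xRep -
        2 * (Height.logHeight P.xRep + Height.logHeight Q.xRep)| ≤ C

variable (F : Type) [Field F]

/-- The nonsingular equations of height `n`. -/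
def Ell (n : ℕ) : Set (F[X] × F[X] × F[X]) := {f ∈ Fam F n | disc f.1 f.2.1 f.2.2 ≠ 0}

/-- The nonsingular equations of height `n` without rational points of order two. -/
def Irr (n : ℕ) : Set (F[X] × F[X] × F[X]) :=
  {f ∈ Fam F n | Irreducible (cubK f) ∧ (cubK f).Separable}

open Classical in
/-- ST1: the inequality for the irreducible cubics, every `n`. -/
def ST1Stmt : Prop :=
  ∀ (F : Type) [Field F] [Finite F], (2 : F) ≠ 0 → ∀ n : ℕ, 1 ≤ n →
    (Irr F n).Finite ∧ (∀ f ∈ Irr F n, Finite (Mod2 (EK f))) ∧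
    ∑ᶠ f ∈ Irr F n, ((Nat.card (Mod2 (EK f)) : ℝ) - 1) ≤
      (Nat.card F : ℝ) ^ (12 * n + 6) *
        (2 / (((Nat.card F : ℝ) - 1) ^ 2 * ((Nat.card F : ℝ) + 1)))

open Classical in
/-- ST2: the asymptotic inequality for all nonsingular equations. -/
def ST2Stmt : Prop :=
  ∀ (F : Type) [Field F] [Finite F], (2 : F) ≠ 0 → ∀ ε : ℝ, 0 < ε → ∃ N : ℕ, ∀ n : ℕ, N ≤ n →
    (Ell F n).Finite ∧ (∀ f ∈ Ell F n, Finite (Mod2 (EK f))) ∧
    ∑ᶠ f ∈ Ell F n, (Nat.card (Mod2 (EK f)) : ℝ) ≤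
      (1 + 2 / ((1 - 1 / (Nat.card F : ℝ)) * (1 - 1 / (Nat.card F : ℝ) ^ 2)) + ε) *
        (Ell F n).ncard

end Pool.AVR
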