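import Pool.Agent.H14.AVR.Stmts2

/-!
# AVR: statements of the modules (stage 3: squarefree discriminant in characteristic 3)
-/

set_option autoImplicit false

namespace Pool.AVR

open Polynomial Matrix

/-- `R` is a local ring with maximal ideal `(ϖ)`, `ϖ² = 0`, `ϖ ≠ 0`, of length two. -/
structure Len2 (R : Type) [CommRing R] (ϖ : R) : Prop where
  sq : ϖ * ϖ = 0
  ne : ϖ ≠ 0
  unit : ∀ x : R, IsUnit x ∨ ϖ ∣ x
  nonunit : ¬ IsUnit ϖ
  ann : ∀ x : R, ϖ * x = 0 → ϖ ∣ x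

/-- The size of the residue field. -/
noncomputable def res {R : Type} [CommRing R] (ϖ : R) : ℕ := Nat.card (R ⧸ Ideal.span {ϖ})

/-- The value of the cubic. -/
def ev {R : Type} [CommRing R] (a b c s : R) : R := s ^ 3 + a * s ^ 2 + b * s + c

/-- The value of its derivative. -/
def dv {R : Type} [CommRing R] (a b s : R) : R := 3 * s ^ 2 + 2 * a * s + b

/-- The cubic has a double root modulo `ϖ`. -/
def Dbl {R : Type} [CommRing R] (ϖ a b c : R) : Prop := ∃ s : R, ϖ ∣ ev a b c s ∧ ϖ ∣ dv a b s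

/-- The symmetric matrices `B` such that `A B` has a given characteristic polynomial. -/
def Fib {R : Type} [CommRing R] (a b c : R) : Set (Matrix (Fin 3) (Fin 3) R) :=
  {B | Bᵀ = B ∧ (AA R * B).charpoly = cub a b c}

/-- LDA: first entry a unit. -/
def LDAStmt : Prop :=
  ∀ (R : Type) [CommRing R] [Finite R] (ϖ : R), Len2 R ϖ → IsUnit (2 : R) → ∀ a b c : R,
    {B ∈ Fib a b c | IsUnit (B 0 0)}.ncard ≤ res ϖ ^ 2 * (res ϖ ^ 2 - res ϖ) *
      ({s : R | IsUnit (ev a b c s)}.ncard + res ϖ * {s : R | ev a b c s = 0}.ncard)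

/-- LDB: first entry a nonunit, second entry a unit. -/
def LDBStmt : Prop :=
  ∀ (R : Type) [CommRing R] [Finite R] (ϖ : R), Len2 R ϖ → IsUnit (2 : R) → ∀ a b c : R,
    {B ∈ Fib a b c | ¬ IsUnit (B 0 0) ∧ IsUnit (B 0 1)}.ncard ≤ res ϖ ^ 4 * (res ϖ - 1)

/-- LDC: the first two entries nonunits. -/
def LDCStmt : Prop :=
  ∀ (R : Type) [CommRing R] [Finite R] (ϖ : R), Len2 R ϖ → IsUnit (2 : R) → ∀ a b c : R,
    disc a b c ≠ 0 →
    (¬ Dbl ϖ a b c → {B ∈ Fib a b c | ¬ IsUnit (B 0 0) ∧ ¬ IsUnit (B 0 1)} = ∅) ∧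
    {B ∈ Fib a b c | ¬ IsUnit (B 0 0) ∧ ¬ IsUnit (B 0 1)}.ncard ≤ res ϖ ^ 4 * (res ϖ - 1)

/-- LDN: numbers of values. -/
def LDNStmt : Prop :=
  ∀ (R : Type) [CommRing R] [Finite R] (ϖ : R), Len2 R ϖ → IsUnit (2 : R) → ∀ a b c : R,
    disc a b c ≠ 0 →
    (¬ Dbl ϖ a b c → {s : R | IsUnit (ev a b c s)}.ncard +
      res ϖ * {s : R | ev a b c s = 0}.ncard ≤ res ϖ ^ 2) ∧
    (Dbl ϖ a b c → {s : R | IsUnit (ev a b c s)}.ncard +
      res ϖ * {s : R | ev a b c s = 0}.ncard ≤ res ϖ ^ 2 - res ϖ)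

/-- LDT: the local count. -/
def LDTStmt : Prop :=
  ∀ (R : Type) [CommRing R] [Finite R] (ϖ : R), Len2 R ϖ → IsUnit (2 : R) → ∀ a b c : R,
    disc a b c ≠ 0 → (Fib a b c).ncard ≤ res ϖ ^ 6 - res ϖ ^ 4 ∧ Nat.card R = res ϖ ^ 2

/-- LN2: the rings to which this is applied. -/
def LN2Stmt : Prop :=
  ∀ (F : Type) [Field F] [Finite F],
    (∀ P : F[X], P.Monic → Irreducible P →
      Len2 (AdjoinRoot (P ^ 2)) (AdjoinRoot.mk (P ^ 2) P) ∧ Finite (AdjoinRoot (P ^ 2)) ∧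
      res (AdjoinRoot.mk (P ^ 2) P) = Nat.card F ^ P.natDegree) ∧
    Len2 (DualNumber F) DualNumber.eps ∧ res (DualNumber.eps : DualNumber F) = Nat.card F

/-- The proportion of the cubics over a finite ring with nonzero discriminant. -/
noncomputable def dens (R : Type) [CommRing R] : ℝ :=
  ({t : R × R × R | disc t.1 t.2.1 t.2.2 ≠ 0}.ncard : ℝ) / (Nat.card R : ℝ) ^ 3

variable (F : Type) [Field F]

/-- The equations of height `n` with squarefree discriminant, also at infinity. -/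
def SF (n : ℕ) : Set (F[X] × F[X] × F[X]) :=
  {f ∈ Fam F n | Squarefree (disc f.1 f.2.1 f.2.2) ∧
    12 * n ≤ (disc f.1 f.2.1 f.2.2).natDegree + 1}

variable {F}

/-- The two top coefficients of a polynomial of degree at most `N`. -/
def top (N : ℕ) (p : F[X]) : DualNumber F := (p.coeff N, p.coeff (N - 1))

/-- TOP: the characteristic polynomial and the discriminant at infinity. -/
def TOPStmt : Prop :=
  ∀ (F : Type) [Field F] (n m : ℕ), m < n →
    (∀ (B : Matrix (Fin 3) (Fin 3) F[X]) (f : F[X] × F[X] × F[X]), Bd n m B → f ∈ Fam F n →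
      (AA F[X] * B).charpoly = cubP f →
      (AA (DualNumber F) * Matrix.of fun i j =>
        top (2 * (n : ℤ) + dd m i + dd m j).toNat (B i j)).charpoly =
          cub (top (2 * n) f.1) (top (4 * n) f.2.1) (top (6 * n) f.2.2)) ∧
    ∀ f ∈ Fam F n, top (12 * n) (disc f.1 f.2.1 f.2.2) =
      disc (top (2 * n) f.1) (top (4 * n) f.2.1) (top (6 * n) f.2.2)

/-- NUM: upper bound for the numerator. -/
def NUMStmt : Prop :=
  ∀ (F : Type) [Field F] [Finite F], (2 : F) ≠ 0 → ∀ S : Finset F[X],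
    (∀ P ∈ S, P.Monic ∧ Irreducible P) → ∃ D : ℕ, ∀ n m : ℕ, m + D ≤ n →
    ({B : Matrix (Fin 3) (Fin 3) F[X] | Bd n m B ∧ ∃ f ∈ SF F n,
      (AA F[X] * B).charpoly = cubP f}.ncard : ℝ) ≤
      (Nat.card F : ℝ) ^ (12 * n + 6) * (dens (DualNumber F) * (1 - 1 / (Nat.card F : ℝ) ^ 2)) *
        ∏ P ∈ S, (dens (AdjoinRoot (P ^ 2)) * (1 - 1 / (Nat.card F : ℝ) ^ (2 * P.natDegree)))

/-- EQF: equidistribution of the equations of height `n`. -/
def EQFStmt : Prop :=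
  ∀ (F : Type) [Field F] [Finite F] (n : ℕ) (M : F[X]), M ≠ 0 → 1 ≤ n →
    M.natDegree + 2 ≤ 2 * n + 1 →
    ∀ (W : Set (AdjoinRoot M × AdjoinRoot M × AdjoinRoot M))
      (V : Set (DualNumber F × DualNumber F × DualNumber F)),
      {f ∈ Fam F n | (AdjoinRoot.mk M f.1, AdjoinRoot.mk M f.2.1, AdjoinRoot.mk M f.2.2) ∈ W ∧
        (top (2 * n) f.1, top (4 * n) f.2.1, top (6 * n) f.2.2) ∈ V}.ncard *
        (Nat.card F ^ (3 * M.natDegree) * Nat.card F ^ 6) =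
      Nat.card F ^ (12 * n + 3) * (W.ncard * V.ncard)

/-- TAI: few discriminants are divisible by the square of a large prime (characteristic 3). -/
def TAIStmt : Prop :=
  ∀ (F : Type) [Field F] [Finite F], (3 : F) = 0 → ∀ ε : ℝ, 0 < ε → ∃ D N : ℕ, ∀ n : ℕ, N ≤ n →
    ({f ∈ Fam F n | ∃ P : F[X], P.Monic ∧ Irreducible P ∧ D < P.natDegree ∧
      P ^ 2 ∣ disc f.1 f.2.1 f.2.2}.ncard : ℝ) ≤ ε * (Nat.card F : ℝ) ^ (12 * n + 3)

/-- DNF: lower bound for the number of equations with squarefree discriminant. -/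
def DNFStmt : Prop :=
  ∀ (F : Type) [Field F] [Finite F], (3 : F) = 0 → ∀ ε : ℝ, 0 < ε → ∃ D : ℕ, ∀ S : Finset F[X],
    (∀ P ∈ S, P.Monic ∧ Irreducible P) →
    (∀ P : F[X], P.Monic → Irreducible P → P.natDegree ≤ D → P ∈ S) →
    ∃ N : ℕ, ∀ n : ℕ, N ≤ n → (SF F n).Finite ∧
      (Nat.card F : ℝ) ^ (12 * n + 3) *
        (dens (DualNumber F) * ∏ P ∈ S, dens (AdjoinRoot (P ^ 2)) - ε) ≤ (SF F n).ncard

/-- DEL: lower bounds for the local densities (characteristic 3). -/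
def DELStmt : Prop :=
  ∀ (R : Type) [CommRing R] [Finite R] (ϖ : R), Len2 R ϖ → (3 : R) = 0 →
    1 - 2 / (res ϖ : ℝ) ^ 2 ≤ dens R

/-- PRD: the product of the densities is bounded below. -/
def PRDStmt : Prop :=
  ∀ (F : Type) [Field F] [Finite F], (3 : F) = 0 → ∃ c : ℝ, 0 < c ∧ ∀ S : Finset F[X],
    (∀ P ∈ S, P.Monic ∧ Irreducible P) →
    c ≤ dens (DualNumber F) * ∏ P ∈ S, dens (AdjoinRoot (P ^ 2))

/-- ZET: the Euler product. -/
def ZETStmt : Prop :=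
  ∀ (F : Type) [Field F] [Finite F], ∀ ε : ℝ, 0 < ε → ∃ D : ℕ, ∀ S : Finset F[X],
    (∀ P ∈ S, P.Monic ∧ Irreducible P) →
    (∀ P : F[X], P.Monic → Irreducible P → P.natDegree ≤ D → P ∈ S) →
    ∏ P ∈ S, (1 - 1 / (Nat.card F : ℝ) ^ (2 * P.natDegree)) ≤ 1 - 1 / (Nat.card F : ℝ) + ε

/-- SFI: squarefree discriminant implies irreducible and separable. -/
def SFIStmt : Prop :=
  ∀ (F : Type) [Field F] [Finite F], (2 : F) ≠ 0 → ∀ n : ℕ, 1 ≤ n → SF F n ⊆ Irr F n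

open Classical in
/-- ST3: the average is at most 3 for squarefree discriminants in characteristic 3. -/
def ST3Stmt : Prop :=
  ∀ (F : Type) [Field F] [Finite F], (3 : F) = 0 → ∀ ε : ℝ, 0 < ε → ∃ N : ℕ, ∀ n : ℕ, N ≤ n →
    0 < (SF F n).ncard ∧ (∀ f ∈ SF F n, Finite (Mod2 (EK f))) ∧
    ∑ᶠ f ∈ SF F n, (Nat.card (Mod2 (EK f)) : ℝ) ≤ (3 + ε) * (SF F n).ncard

end Pool.AVR
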