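import Pool.Agent.H14.AVR.Stmts4

/-!
# AVR: the final statement (squarefree discriminant, all odd characteristics) from the modules
-/

set_option autoImplicit false

namespace Pool.AVR

open Polynomial Matrix

section

variable {F : Type} [Field F]

open Classical in
/-- The rank of the Mordell-Weil group `E_f(F(t))`. -/
noncomputable def rk (f : F[X] × F[X] × F[X]) : ℕ := Module.finrank ℤ (EK f)

end

variable (F : Type) [Field F]

open Classical in
/-- The final statement for the finite field `F`. -/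
def MainSF : Prop :=
  (∀ n : ℕ, 1 ≤ n → ∀ f ∈ SF F n,
    (E (algebraMap F[X] (RatFunc F) f.1) (algebraMap F[X] (RatFunc F) f.2.1)
      (algebraMap F[X] (RatFunc F) f.2.2)).Δ ≠ 0 ∧
    AddGroup.FG (EK f) ∧ (∀ P : EK f, P + P = 0 → P = 0) ∧
    Nat.card (Mod2 (EK f)) = 2 ^ rk f) ∧
  (∃ δ : ℝ, 0 < δ ∧ ∃ N : ℕ, ∀ n : ℕ, N ≤ n →
    (Fam F n).ncard = Nat.card F ^ (12 * n + 3) ∧
    δ * (Fam F n).ncard ≤ (SF F n).ncard) ∧
  ∀ ε : ℝ, 0 < ε → ∃ N : ℕ, ∀ n : ℕ, N ≤ n →
    ∑ᶠ f ∈ SF F n, (2 : ℝ) ^ rk f ≤ (3 + ε) * (SF F n).ncard ∧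
    ∑ᶠ f ∈ SF F n, (rk f : ℝ) ≤ (3 / 2 + ε) * (SF F n).ncard ∧
    (1 / 3 - ε) * (SF F n).ncard ≤ {f ∈ SF F n | rk f ≤ 1}.ncard

section proofs

variable {F}

theorem finsum_mem_le {α : Type} {s : Set α} (hs : s.Finite) {f g : α → ℝ}
    (h : ∀ a ∈ s, f a ≤ g a) : ∑ᶠ a ∈ s, f a ≤ ∑ᶠ a ∈ s, g a := by
  rw [finsum_mem_eq_finite_toFinset_sum f hs, finsum_mem_eq_finite_toFinset_sum g hs]
  exact Finset.sum_le_sum fun a ha => h a (hs.mem_toFinset.1 ha)

theorem finsum_mem_const {α : Type} {s : Set α} (hs : s.Finite) (c : ℝ) :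
    ∑ᶠ _a ∈ s, c = s.ncard * c := by
  rw [finsum_mem_eq_finite_toFinset_sum _ hs, Finset.sum_const, nsmul_eq_mul,
    Set.ncard_eq_toFinset_card s hs]

theorem two_mul_le_pow (r : ℕ) : (2 : ℝ) * r ≤ 2 ^ r := by
  induction r with
  | zero => simp
  | succ r ih =>
    rcases Nat.eq_zero_or_pos r with h | h
    · subst h; norm_num
    · have h1 : (2 : ℝ) ≤ 2 ^ r := by
        calc (2 : ℝ) = 2 ^ 1 := by norm_num
          _ ≤ 2 ^ r := pow_le_pow_right₀ (by norm_num) h
      push_cast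
      rw [pow_succ]
      linarith

/-- Average of the rank from the average of `2 ^ rank`. -/
theorem rank_of_pow {α : Type} {s : Set α} (hs : s.Finite) (r : α → ℕ) {A : ℝ}
    (h : ∑ᶠ a ∈ s, (2 : ℝ) ^ r a ≤ A * s.ncard) :
    ∑ᶠ a ∈ s, (r a : ℝ) ≤ A / 2 * s.ncard := by
  have h1 : ∑ᶠ a ∈ s, (2 : ℝ) * (r a : ℝ) ≤ ∑ᶠ a ∈ s, (2 : ℝ) ^ r a :=
    finsum_mem_le hs fun a _ => two_mul_le_pow (r a)
  have h2 : ∑ᶠ a ∈ s, (2 : ℝ) * (r a : ℝ) = 2 * ∑ᶠ a ∈ s, (r a : ℝ) := by
    rw [finsum_mem_eq_finite_toFinset_sum _ hs, finsum_mem_eq_finite_toFinset_sum _ hs,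
      Finset.mul_sum]
  linarith

/-- Many elements of rank at most one. -/
theorem small_of_pow {α : Type} {s : Set α} (hs : s.Finite) (r : α → ℕ) {ε : ℝ} (hε : 0 < ε)
    (h : ∑ᶠ a ∈ s, (2 : ℝ) ^ r a ≤ (3 + ε) * s.ncard) :
    (1 / 3 - ε) * s.ncard ≤ {a ∈ s | r a ≤ 1}.ncard := by
  classical
  have hsub : {a ∈ s | r a ≤ 1} ⊆ s := fun a ha => ha.1
  have hf1 : {a ∈ s | r a ≤ 1}.Finite := hs.subset hsub
  have hf2 : {a ∈ s | ¬ r a ≤ 1}.Finite := hs.subset fun a ha => ha.1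
  have hcard : (s.ncard : ℝ) = {a ∈ s | r a ≤ 1}.ncard + {a ∈ s | ¬ r a ≤ 1}.ncard := by
    have h0 : s = {a ∈ s | r a ≤ 1} ∪ {a ∈ s | ¬ r a ≤ 1} := by
      ext a
      simp only [Set.mem_union, Set.mem_ofPred_eq]
      tauto
    have hd : Disjoint {a ∈ s | r a ≤ 1} {a ∈ s | ¬ r a ≤ 1} := by
      rw [Set.disjoint_left]
      intro a h1 h2
      exact h2.2 h1.2
    have := Set.ncard_union_eq hd hf1 hf2
    rw [← h0] at this
    exact_mod_cast this
  have hsum : ∑ᶠ a ∈ s, (1 + if r a ≤ 1 then (0 : ℝ) else 3) ≤ ∑ᶠ a ∈ s, (2 : ℝ) ^ r a := by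
    apply finsum_mem_le hs
    intro a _
    split_ifs with h1
    · have : (1 : ℝ) ≤ 2 ^ r a := one_le_pow₀ (by norm_num)
      linarith
    · have h2 : (2 : ℝ) ^ 2 ≤ 2 ^ r a := pow_le_pow_right₀ (by norm_num) (by omega)
      linarith
  have hval : ∑ᶠ a ∈ s, (1 + if r a ≤ 1 then (0 : ℝ) else 3) =
      s.ncard + 3 * {a ∈ s | ¬ r a ≤ 1}.ncard := by
    rw [finsum_mem_eq_finite_toFinset_sum _ hs, Finset.sum_add_distrib, Finset.sum_const,
      nsmul_eq_mul, mul_one, Set.ncard_eq_toFinset_card s hs]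
    congr 1
    rw [Finset.sum_ite, Finset.sum_const_zero, zero_add, Finset.sum_const, nsmul_eq_mul,
      Set.ncard_eq_toFinset_card _ hf2, mul_comm]
    congr 3
    ext a
    simp
  have h3 : ({a ∈ s | ¬ r a ≤ 1}.ncard : ℝ) ≤ (2 + ε) / 3 * s.ncard := by
    rw [hval] at hsum
    linarith
  have hn : (0 : ℝ) ≤ s.ncard := Nat.cast_nonneg _
  nlinarith

end proofs

theorem mainSF_of (hST4 : ST4Stmt) (hST2 : ST2Stmt) (hMWL : MWLStmt) (hRNK : RNKStmt)
    (hCNF : CNFStmt) (hSFI : SFIStmt) (hDSC : DSCStmt) (hDNG : DNGStmt) (hPRG : PRGStmt)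
    (F : Type) [Field F] [Finite F] (h2 : (2 : F) ≠ 0) : MainSF F := by
  classical
  have h2K : (2 : RatFunc F) ≠ 0 := by
    intro h
    apply h2
    have h3 : algebraMap F (RatFunc F) 2 = algebraMap F (RatFunc F) 0 := by
      rw [map_ofNat, map_zero]
      exact h
    exact (algebraMap F (RatFunc F)).injective h3
  have hdiscmap : ∀ f : F[X] × F[X] × F[X],
      disc (algebraMap F[X] (RatFunc F) f.1) (algebraMap F[X] (RatFunc F) f.2.1)
        (algebraMap F[X] (RatFunc F) f.2.2) = algebraMap F[X] (RatFunc F)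
          (disc f.1 f.2.1 f.2.2) := by
    intro f
    simp only [disc, map_add, map_sub, map_mul, map_pow, map_ofNat]
  have hsep : ∀ f : F[X] × F[X] × F[X], (cubK f).Separable ↔ disc f.1 f.2.1 f.2.2 ≠ 0 := by
    intro f
    rw [cubK, (hDSC (RatFunc F) h2K _ _ _).1, hdiscmap]
    exact (map_ne_zero_iff _ (RatFunc.algebraMap_injective F))
  have hfg : ∀ f : F[X] × F[X] × F[X], (cubK f).Separable → Finite (Mod2 (EK f)) →
      AddGroup.FG (EK f) := fun f h1 h3 => hMWL F h2 f h1 h3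
  have hIrrEll : ∀ n, Irr F n ⊆ Ell F n := fun n f hf => ⟨hf.1, (hsep f).1 hf.2.2⟩
  have hEllFin : ∀ n, ∀ f ∈ Ell F n, Finite (Mod2 (EK f)) := by
    intro n f hf
    obtain ⟨N, hN⟩ := hST2 F h2 1 one_pos
    have h3 := hN (max n N) (le_max_right _ _)
    refine h3.2.1 f ⟨⟨hf.1.1.trans ?_, hf.1.2.1.trans ?_, hf.1.2.2.trans ?_⟩, hf.2⟩ <;>
    · have := le_max_left n N
      omega
  have hEllFG : ∀ n, ∀ f ∈ Ell F n, AddGroup.FG (EK f) := fun n f hf =>
    hfg f ((hsep f).2 hf.2) (hEllFin n f hf)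
  have hle : ∀ n, ∀ f ∈ Ell F n, (2 : ℝ) ^ rk f ≤ Nat.card (Mod2 (EK f)) := by
    intro n f hf
    have := (hRNK (EK f) (hEllFG n f hf)).2.1
    exact_mod_cast this
  have htors : ∀ n, ∀ f ∈ Irr F n, ∀ P : EK f, P + P = 0 → P = 0 := by
    intro n f hf P hP
    rcases P with _ | ⟨x, y, h⟩
    · rfl
    · exfalso
      have hneg : (WeierstrassCurve.Affine.Point.some x y h : EK f) =
          -(WeierstrassCurve.Affine.Point.some x y h : EK f) := eq_neg_of_add_eq_zero_left hP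
      rw [WeierstrassCurve.Affine.Point.neg_some] at hneg
      have hy : y = -y := by
        have h5 := (WeierstrassCurve.Affine.Point.some.injEq _ _ _ _ _ _).mp hneg
        have h6 := h5.2
        simpa [WeierstrassCurve.Affine.negY, E] using h6
      have hy0 : y = 0 := by
        have : (2 : RatFunc F) * y = 0 := by linear_combination hy
        rcases mul_eq_zero.1 this with h7 | h7
        · exact absurd h7 h2K
        · exact h7
      have heq := h.1
      rw [WeierstrassCurve.Affine.equation_iff] at heq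
      simp only [E, hy0] at heq
      have hroot : (cubK f).IsRoot x := by
        simp only [cubK, cub, IsRoot.def, eval_add, eval_mul, eval_pow, eval_X, eval_C]
        linear_combination -heq
      have hdeg : (cubK f).natDegree = 3 := by
        unfold cubK cub
        compute_degree!
      have h8 : (cubK f).natDegree = 1 := natDegree_eq_of_degree_eq_some
        (degree_eq_one_of_irreducible_of_root hf.2.1 hroot)
      rw [hdeg] at h8
      exact absurd h8 (by norm_num)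
  refine ⟨?_, ?_, ?_⟩
  · intro n hn f hf
    have hI : f ∈ Irr F n := hSFI F h2 n hn hf
    have hE : f ∈ Ell F n := hIrrEll n hI
    refine ⟨?_, hEllFG n f hE, htors n f hI, ?_⟩
    · rw [(hDSC (RatFunc F) h2K _ _ _).2, hdiscmap]
      have h16 : (16 : RatFunc F) ≠ 0 := by
        have : (16 : RatFunc F) = 2 ^ 4 := by norm_num
        rw [this]
        exact pow_ne_zero _ h2K
      exact mul_ne_zero h16 ((map_ne_zero_iff _ (RatFunc.algebraMap_injective F)).2 hE.2)
    · exact ((hRNK (EK f) (hEllFG n f hE)).2.2 (htors n f hI)).symm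
  · obtain ⟨c, hc, hcS⟩ := hPRG F h2
    obtain ⟨D, hD⟩ := hDNG F h2 (c / 2) (by linarith)
    have hfinD : {P : F[X] | P.Monic ∧ Irreducible P ∧ P.natDegree ≤ D}.Finite := by
      have h1 : {P : F[X] | P.natDegree ≤ D}.Finite := by
        have h2 : (Fam F (max D 1)).Finite := (hCNF F h2 (max D 1) (le_max_right _ _)).1
        refine (h2.image Prod.fst).subset ?_
        intro P hP
        refine ⟨(P, 0, 0), ⟨?_, by simp, by simp⟩, rfl⟩
        have h3 : P.natDegree ≤ D := hP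
        have h4 : D ≤ max D 1 := le_max_left D 1
        show P.natDegree ≤ 2 * max D 1
        omega
      exact h1.subset fun P hP => hP.2.2
    obtain ⟨N, hN⟩ := hD hfinD.toFinset (fun P hP => by
      have := hfinD.mem_toFinset.1 hP
      exact ⟨this.1, this.2.1⟩) (fun P h1 h2 h3 => hfinD.mem_toFinset.2 ⟨h1, h2, h3⟩)
    refine ⟨c / 2, by linarith, max N 1, fun n hn => ?_⟩
    have hn1 : N ≤ n := (le_max_left _ _).trans hn
    have hn2 : 1 ≤ n := (le_max_right _ _).trans hn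
    obtain ⟨hc1, hc2, hc3⟩ := hCNF F h2 n hn2
    refine ⟨hc2, ?_⟩
    have h5 := (hN n hn1).2
    have h6 := hcS hfinD.toFinset (fun P hP => by
      have := hfinD.mem_toFinset.1 hP
      exact ⟨this.1, this.2.1⟩)
    refine le_trans ?_ h5
    rw [hc2]
    push_cast
    rw [mul_comm]
    refine mul_le_mul_of_nonneg_left ?_ (by positivity)
    linarith
  · intro ε hε
    obtain ⟨N, hN⟩ := hST4 F h2 ε hε
    refine ⟨max N 1, fun n hn => ?_⟩
    have hn1 : N ≤ n := (le_max_left _ _).trans hn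
    have hn2 : 1 ≤ n := (le_max_right _ _).trans hn
    obtain ⟨hE1, hE2, hE3⟩ := hN n hn1
    have hSI : SF F n ⊆ Ell F n := (hSFI F h2 n hn2).trans (hIrrEll n)
    have hfin : (SF F n).Finite := Set.finite_of_ncard_pos hE1
    have h5 : ∑ᶠ f ∈ SF F n, (2 : ℝ) ^ rk f ≤ (3 + ε) * (SF F n).ncard :=
      (finsum_mem_le hfin fun f hf => hle n f (hSI hf)).trans hE3
    refine ⟨h5, ?_, small_of_pow hfin rk hε h5⟩
    refine (rank_of_pow hfin rk h5).trans ?_
    have hn0 : (0 : ℝ) ≤ (SF F n).ncard := Nat.cast_nonneg _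
    refine mul_le_mul_of_nonneg_right ?_ hn0
    linarith

end Pool.AVR
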