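import Mathlib

/-!
# The average rank of elliptic curves over `F(t)`, `F` a finite field of odd order: definitions

`F` is a finite field of odd characteristic, `K = F(t)` (`RatFunc F`), and the elliptic curves are
`y² = x³ + a x² + b x + c` with `a, b, c ∈ F[t]` of degree at most `2n, 4n, 6n`.
-/

set_option autoImplicit false

namespace Pool.AVR

open Polynomial Matrix

section General

variable {K : Type} [Field K]

/-- The curve `y² = x³ + a x² + b x + c`. -/
def E (a b c : K) : WeierstrassCurve K := ⟨0, a, 0, b, c⟩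

/-- The group `E(K)` of the curve `y² = x³ + a x² + b x + c`. -/
abbrev Pt (a b c : K) : Type := (E a b c).toAffine.Point

/-- The cubic polynomial `X³ + a X² + b X + c`. -/
noncomputable def cub {R : Type} [CommRing R] (a b c : R) : R[X] :=
  X ^ 3 + C a * X ^ 2 + C b * X + C c

/-- The coefficient of `X²` in the remainder of `p` modulo the cubic. -/
noncomputable def tau (a b c : K) (p : K[X]) : K := (p %ₘ cub a b c).coeff 2

/-- The inverse of `x - X` modulo the cubic, `(x, y)` a point of the curve with `y ≠ 0`. -/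
noncomputable def hh (a b x y : K) : K[X] :=
  C ((y ^ 2)⁻¹) * (X ^ 2 + C (x + a) * X + C (x ^ 2 + a * x + b))

/-- The antidiagonal `3 × 3` matrix. -/
def AA (R : Type) [CommRing R] : Matrix (Fin 3) (Fin 3) R := !![0, 0, 1; 0, 1, 0; 1, 0, 0]

/-- The pair `(G, B)` of matrices is the pair of Gram matrices of `p, q ↦ τ(p q / (x - X))` and
`p, q ↦ τ(X p q / (x - X))` for three polynomials `e 0, e 1, e 2`. -/
def Rep (a b c x y : K) (G B : Matrix (Fin 3) (Fin 3) K) : Prop :=
  ∃ e : Fin 3 → K[X], (∀ i j, tau a b c (e i * e j * hh a b x y) = G i j) ∧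
    ∀ i j, tau a b c (X * (e i * e j * hh a b x y)) = B i j

/-- The equation of the curve. -/
def OnC (a b c x y : K) : Prop := y ^ 2 = x ^ 3 + a * x ^ 2 + b * x + c

end General

section Function

variable (F : Type) [Field F]

/-- The rational functions of degree at most `0` (regular at infinity). -/
def OInf : Subring (RatFunc F) where
  carrier := {x | x.intDegree ≤ 0}
  zero_mem' := by simp
  one_mem' := by simp
  mul_mem' := by
    intro x y hx hy
    simp only [Set.mem_setOf_eq] at *
    by_cases h1 : x = 0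
    · simp [h1]
    by_cases h2 : y = 0
    · simp [h2]
    rw [RatFunc.intDegree_mul h1 h2]
    omega
  add_mem' := by
    intro x y hx hy
    simp only [Set.mem_setOf_eq] at *
    by_cases h2 : y = 0
    · simpa [h2] using hx
    by_cases h3 : x + y = 0
    · simp [h3]
    · exact (RatFunc.intDegree_add_le h2 h3).trans (max_le hx hy)
  neg_mem' := by
    intro x hx
    simpa using hx

variable {F}

/-- The degrees `(-m, 0, m)`. -/
def dd (m : ℕ) : Fin 3 → ℤ := ![-(m : ℤ), 0, m]

/-- Symmetric `3 × 3` matrices over `F[t]` with entries of degree at most `2n + d_i + d_j`. -/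
def Bd (n m : ℕ) (B : Matrix (Fin 3) (Fin 3) F[X]) : Prop :=
  Bᵀ = B ∧ ∀ i j, B i j ≠ 0 → ((B i j).natDegree : ℤ) ≤ 2 * n + dd m i + dd m j

variable (F)

/-- Isometries of the antidiagonal form over `F[t]`, determinant one, with entries of degree at
most `d_j - d_i`. -/
def GG (m : ℕ) : Set (Matrix (Fin 3) (Fin 3) F[X]) :=
  {g | gᵀ * AA F[X] * g = AA F[X] ∧ g.det = 1 ∧
    ∀ i j, g i j ≠ 0 → ((g i j).natDegree : ℤ) ≤ dd m j - dd m i}

/-- The coefficients `(a, b, c)` of height `n`. -/
def Fam (n : ℕ) : Set (F[X] × F[X] × F[X]) :=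
  {f | f.1.natDegree ≤ 2 * n ∧ f.2.1.natDegree ≤ 4 * n ∧ f.2.2.natDegree ≤ 6 * n}

variable {F}

/-- The group `E_f(F(t))` for `f = (a, b, c)`. -/
abbrev EK (f : F[X] × F[X] × F[X]) : Type :=
  Pt (algebraMap F[X] (RatFunc F) f.1) (algebraMap F[X] (RatFunc F) f.2.1)
    (algebraMap F[X] (RatFunc F) f.2.2)

/-- The cubic `x³ + a x² + b x + c` over `F[t]`. -/
noncomputable def cubP (f : F[X] × F[X] × F[X]) : F[X][X] := cub f.1 f.2.1 f.2.2

/-- The cubic over `F(t)`. -/
noncomputable def cubK (f : F[X] × F[X] × F[X]) : (RatFunc F)[X] :=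
  cub (algebraMap F[X] (RatFunc F) f.1) (algebraMap F[X] (RatFunc F) f.2.1)
    (algebraMap F[X] (RatFunc F) f.2.2)

/-- The discriminant of the cubic. -/
noncomputable def disc {R : Type} [CommRing R] (a b c : R) : R :=
  a ^ 2 * b ^ 2 - 4 * b ^ 3 - 4 * a ^ 3 * c + 18 * a * b * c - 27 * c ^ 2

end Function

/-- `G / 2G`. -/
abbrev Mod2 (G : Type) [AddCommGroup G] : Type := G ⧸ (nsmulAddMonoidHom (α := G) 2).range

end Pool.AVR
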