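import Pool.Agent.H14.AVR.Defs

/-!
# AVR: statements of the modules (stage 1)
-/

set_option autoImplicit false

namespace Pool.AVR

open Polynomial Matrix

/-- KER: `x - X` is a square modulo the cubic only for the points of `2 E(K)`. -/
def KERStmt : Prop :=
  ∀ (K : Type) [Field K] [DecidableEq K], (2 : K) ≠ 0 → ∀ a b c : K, (cub a b c).Separable →
    ∀ (x y : K) (h : (E a b c).toAffine.Nonsingular x y) (u : K[X]),
      cub a b c ∣ C x - X - u ^ 2 →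
      ∃ Q : Pt a b c, (WeierstrassCurve.Affine.Point.some x y h : Pt a b c) = Q + Q

/-- HOM: if `(x₁ - X)(x₂ - X)` is a square then the difference is in `2 E(K)`. -/
def HOMStmt : Prop :=
  ∀ (K : Type) [Field K] [DecidableEq K], (2 : K) ≠ 0 → ∀ a b c : K, (cub a b c).Separable →
    ∀ (x₁ y₁ : K) (h₁ : (E a b c).toAffine.Nonsingular x₁ y₁)
      (x₂ y₂ : K) (h₂ : (E a b c).toAffine.Nonsingular x₂ y₂) (u : K[X]),
      y₁ ≠ 0 → y₂ ≠ 0 → cub a b c ∣ (C x₁ - X) * (C x₂ - X) - u ^ 2 →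
      ∃ Q : Pt a b c, (WeierstrassCurve.Affine.Point.some x₁ y₁ h₁ : Pt a b c) -
        WeierstrassCurve.Affine.Point.some x₂ y₂ h₂ = Q + Q

/-- INJ: the pair of Gram matrices determines the square class. -/
def INJStmt : Prop :=
  ∀ (K : Type) [Field K], (2 : K) ≠ 0 → ∀ a b c x₁ y₁ x₂ y₂ : K,
    OnC a b c x₁ y₁ → OnC a b c x₂ y₂ → y₁ ≠ 0 → y₂ ≠ 0 →
    ∀ B : Matrix (Fin 3) (Fin 3) K, Rep a b c x₁ y₁ (AA K) B → Rep a b c x₂ y₂ (AA K) B →
      ∃ u : K[X], cub a b c ∣ (C x₁ - X) * (C x₂ - X) - u ^ 2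

/-- ISO: a common isotropic vector makes the class trivial. -/
def ISOStmt : Prop :=
  ∀ (K : Type) [Field K], (2 : K) ≠ 0 → ∀ a b c x y : K, (cub a b c).Separable →
    OnC a b c x y → y ≠ 0 →
    ∀ B : Matrix (Fin 3) (Fin 3) K, Rep a b c x y (AA K) B → B 0 0 = 0 →
      ∃ u : K[X], cub a b c ∣ C x - X - u ^ 2

/-- CHP: the characteristic polynomial of `A⁻¹ B` is the cubic. -/
def CHPStmt : Prop :=
  ∀ (K : Type) [Field K] (a b c x y : K), OnC a b c x y → y ≠ 0 →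
    ∀ B : Matrix (Fin 3) (Fin 3) K, Rep a b c x y (AA K) B →
      (AA K * B).charpoly = cub a b c

/-- SYB: the matrices are symmetric. -/
def SYBStmt : Prop :=
  ∀ (K : Type) [Field K] (a b c x y : K) (G B : Matrix (Fin 3) (Fin 3) K),
    Rep a b c x y G B → Gᵀ = G ∧ Bᵀ = B

/-- CHB: base change of a pair of Gram matrices. -/
def CHBStmt : Prop :=
  ∀ (K : Type) [Field K] (a b c x y : K) (G B g : Matrix (Fin 3) (Fin 3) K),
    Rep a b c x y G B → Rep a b c x y (gᵀ * G * g) (gᵀ * B * g)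

/-- BAS: two pairs of Gram matrices for the same point are related by a base change. -/
def BASStmt : Prop :=
  ∀ (K : Type) [Field K] (a b c x y : K), OnC a b c x y → y ≠ 0 →
    ∀ G B G' B' : Matrix (Fin 3) (Fin 3) K, Rep a b c x y G B → Rep a b c x y G' B' →
      G'.det ≠ 0 → ∃ g : Matrix (Fin 3) (Fin 3) K, G = gᵀ * G' * g ∧ B = gᵀ * B' * g

/-- STAB: the stabiliser is trivial when the characteristic polynomial is irreducible. -/
def STABStmt : Prop :=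
  ∀ (K : Type) [Field K], (2 : K) ≠ 0 → ∀ B g : Matrix (Fin 3) (Fin 3) K, Bᵀ = B →
    Irreducible (AA K * B).charpoly → gᵀ * AA K * g = AA K → gᵀ * B * g = B → g.det = 1 → g = 1

/-- LAT: the lattice of a point over a subring. -/
def LATStmt : Prop :=
  ∀ (K : Type) [Field K] (O : Subring K) (a b c u v w r s : K),
    a ∈ O → b ∈ O → c ∈ O → u ∈ O → v ∈ O → w ∈ O → r ∈ O → s ∈ O →
    w ≠ 0 → v ≠ 0 → r * w + s * v = 1 →
    v ^ 2 = u ^ 3 + a * u ^ 2 * w ^ 2 + b * u * w ^ 4 + c * w ^ 6 →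
    ∃ G B : Matrix (Fin 3) (Fin 3) K, Rep a b c (u / w ^ 2) (v / w ^ 3) G B ∧
      (∀ i j, G i j ∈ O) ∧ (∀ i j, B i j ∈ O) ∧ G.det = -1

/-- SCL: scaling of the variable. -/
def SCLStmt : Prop :=
  ∀ (K : Type) [Field K] (a b c x y t : K) (G B : Matrix (Fin 3) (Fin 3) K), t ≠ 0 → y ≠ 0 →
    Rep (a / t ^ 2) (b / t ^ 4) (c / t ^ 6) (x / t ^ 2) (y / t ^ 3) G B →
    Rep a b c x y G (t ^ 2 • B)

/-- DEN: denominators of a point. -/
def DENStmt : Prop :=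
  ∀ (F : Type) [Field F] (a b c : F[X]) (x y : RatFunc F),
    OnC (algebraMap F[X] (RatFunc F) a) (algebraMap F[X] (RatFunc F) b)
      (algebraMap F[X] (RatFunc F) c) x y →
    ∃ u v w : F[X], w ≠ 0 ∧ IsCoprime w v ∧
      x = algebraMap F[X] (RatFunc F) u / algebraMap F[X] (RatFunc F) w ^ 2 ∧
      y = algebraMap F[X] (RatFunc F) v / algebraMap F[X] (RatFunc F) w ^ 3

/-- DNI: denominators at infinity. -/
def DNIStmt : Prop :=
  ∀ (F : Type) [Field F] (a b c x y : RatFunc F), a ∈ OInf F → b ∈ OInf F → c ∈ OInf F →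
    OnC a b c x y → y ≠ 0 →
    ∃ u v w r s : RatFunc F, u ∈ OInf F ∧ v ∈ OInf F ∧ w ∈ OInf F ∧ r ∈ OInf F ∧ s ∈ OInf F ∧
      w ≠ 0 ∧ v ≠ 0 ∧ r * w + s * v = 1 ∧ x = u / w ^ 2 ∧ y = v / w ^ 3

/-- BIR: factorisation of matrices over `F(t)` (vector bundles on the projective line split). -/
def BIRStmt : Prop :=
  ∀ (F : Type) [Field F] (g : Matrix (Fin 3) (Fin 3) (RatFunc F)), g.det ≠ 0 →
    ∃ (γ : Matrix (Fin 3) (Fin 3) F[X]) (d : Fin 3 → ℤ) (κ : Matrix (Fin 3) (Fin 3) (RatFunc F)),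
      IsUnit γ.det ∧ (∀ i j, κ i j ∈ OInf F) ∧ κ.det ≠ 0 ∧ (κ.det)⁻¹ ∈ OInf F ∧
      g * γ.map (algebraMap F[X] (RatFunc F)) =
        κ * Matrix.diagonal (fun i => (RatFunc.X : RatFunc F) ^ d i)

/-- NRM: normal form of unimodular ternary forms over the projective line. -/
def NRMStmt : Prop :=
  ∀ (F : Type) [Field F] [Finite F], (2 : F) ≠ 0 → ∀ (n : ℕ) (G B : Matrix (Fin 3) (Fin 3) F[X])
    (G₀ B₀ : Matrix (Fin 3) (Fin 3) (RatFunc F)) (d : Fin 3 → ℤ) (ε : F), ε ≠ 0 →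
    Gᵀ = G → Bᵀ = B → G.det = -C (ε ^ 2) →
    (∀ i j, G₀ i j ∈ OInf F) → (∀ i j, B₀ i j ∈ OInf F) → G₀.det ≠ 0 → (G₀.det)⁻¹ ∈ OInf F →
    G.map (algebraMap F[X] (RatFunc F)) =
      Matrix.diagonal (fun i => (RatFunc.X : RatFunc F) ^ d i) * G₀ *
        Matrix.diagonal (fun i => (RatFunc.X : RatFunc F) ^ d i) →
    B.map (algebraMap F[X] (RatFunc F)) = (RatFunc.X : RatFunc F) ^ (2 * n) •
      (Matrix.diagonal (fun i => (RatFunc.X : RatFunc F) ^ d i) * B₀ *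
        Matrix.diagonal (fun i => (RatFunc.X : RatFunc F) ^ d i)) →
    ∃ (m : ℕ) (γ : Matrix (Fin 3) (Fin 3) F[X]), γᵀ * G * γ = AA F[X] ∧ Bd n m (γᵀ * B * γ)

/-- KEY: every point is represented by an integral symmetric matrix. -/
def KEYStmt : Prop :=
  ∀ (F : Type) [Field F] [Finite F], (2 : F) ≠ 0 → ∀ (n : ℕ) (f : F[X] × F[X] × F[X]),
    f ∈ Fam F n → ∀ x y : RatFunc F,
    OnC (algebraMap F[X] (RatFunc F) f.1) (algebraMap F[X] (RatFunc F) f.2.1)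
      (algebraMap F[X] (RatFunc F) f.2.2) x y → y ≠ 0 →
    ∃ (m : ℕ) (B : Matrix (Fin 3) (Fin 3) F[X]), Bd n m B ∧
      Rep (algebraMap F[X] (RatFunc F) f.1) (algebraMap F[X] (RatFunc F) f.2.1)
        (algebraMap F[X] (RatFunc F) f.2.2) x y (AA (RatFunc F))
        (B.map (algebraMap F[X] (RatFunc F)))

/-- GRP: lower bounds for the groups. -/
def GRPStmt : Prop :=
  ∀ (F : Type) [Field F] [Finite F], (2 : F) ≠ 0 →
    (∀ m, (GG F m).Finite) ∧ Nat.card F ^ 3 - Nat.card F ≤ (GG F 0).ncard ∧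
      ∀ m : ℕ, 1 ≤ m → (Nat.card F - 1) * Nat.card F ^ (m + 1) ≤ (GG F m).ncard

/-- ACT: the groups act. -/
def ACTStmt : Prop :=
  ∀ (F : Type) [Field F] (n m : ℕ) (B g : Matrix (Fin 3) (Fin 3) F[X]), Bd n m B → g ∈ GG F m →
    Bd n m (gᵀ * B * g)

/-- CNB: the number of matrices. -/
def CNBStmt : Prop :=
  ∀ (F : Type) [Field F] [Finite F] (n m : ℕ), m ≤ n →
    {B : Matrix (Fin 3) (Fin 3) F[X] | Bd n m B}.Finite ∧
      {B : Matrix (Fin 3) (Fin 3) F[X] | Bd n m B}.ncard ≤ Nat.card F ^ (12 * n + 6)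

/-- CNF: the number of irreducible separable cubics. -/
def CNFStmt : Prop :=
  ∀ (F : Type) [Field F] [Finite F], (2 : F) ≠ 0 → ∀ n : ℕ, 1 ≤ n →
    (Fam F n).Finite ∧ (Fam F n).ncard = Nat.card F ^ (12 * n + 3) ∧
    {f ∈ Fam F n | ¬ (Irreducible (cubK f) ∧ (cubK f).Separable)}.ncard ≤
      2 * Nat.card F ^ (8 * n + 3)

open Classical in
/-- FIN: the counting inequality. `S` is a set of cubics such that stabilisers have at most `k`
elements. -/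
def FINStmt : Prop :=
  ∀ (F : Type) [Field F] [Finite F], (2 : F) ≠ 0 → ∀ (n k : ℕ) (S : Set (F[X] × F[X] × F[X])),
    S ⊆ Fam F n → (∀ f ∈ S, (cubK f).Separable) →
    (∀ B : Matrix (Fin 3) (Fin 3) F[X], Bᵀ = B → (∃ f ∈ S, (AA F[X] * B).charpoly = cubP f) →
      {g : Matrix (Fin 3) (Fin 3) F[X] | gᵀ * AA F[X] * g = AA F[X] ∧ gᵀ * B * g = B ∧
        g.det = 1}.Finite ∧
      {g : Matrix (Fin 3) (Fin 3) F[X] | gᵀ * AA F[X] * g = AA F[X] ∧ gᵀ * B * g = B ∧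
        g.det = 1}.ncard ≤ k) →
    (∀ f ∈ S, {ξ : Mod2 (EK f) | ξ ≠ 0 ∧ ∃ (x y : RatFunc F)
      (h : (E (algebraMap F[X] (RatFunc F) f.1) (algebraMap F[X] (RatFunc F) f.2.1)
        (algebraMap F[X] (RatFunc F) f.2.2)).toAffine.Nonsingular x y), y ≠ 0 ∧
        QuotientAddGroup.mk (WeierstrassCurve.Affine.Point.some x y h) = ξ}.Finite) ∧
    ∑ᶠ f ∈ S, ({ξ : Mod2 (EK f) | ξ ≠ 0 ∧ ∃ (x y : RatFunc F)
      (h : (E (algebraMap F[X] (RatFunc F) f.1) (algebraMap F[X] (RatFunc F) f.2.1)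
        (algebraMap F[X] (RatFunc F) f.2.2)).toAffine.Nonsingular x y), y ≠ 0 ∧
        QuotientAddGroup.mk (WeierstrassCurve.Affine.Point.some x y h) = ξ}.ncard : ℝ) ≤
      k * ∑ m ∈ Finset.range (n + 1),
        ({B : Matrix (Fin 3) (Fin 3) F[X] | Bd n m B ∧
          ∃ f ∈ S, (AA F[X] * B).charpoly = cubP f}.ncard : ℝ) / (GG F m).ncard

open Classical in
/-- MWL: the group is finitely generated. -/
def MWLStmt : Prop :=
  ∀ (F : Type) [Field F] [Finite F], (2 : F) ≠ 0 → ∀ f : F[X] × F[X] × F[X],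
    (cubK f).Separable → Finite (Mod2 (EK f)) → AddGroup.FG (EK f)

end Pool.AVR
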